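import Pool.Agent.Q120.GM.Gap

/-!
# The maximal gaps between tuples in the sieved random models of the primes

Let `Q ≥ 1`, and let the random set `A` contain the integers `n` coprime to `Q` independently with the probabilities
`(Q / φ(Q)) / log n` (Cramér's model for `Q = 1`; Granville's refinement for `Q` a product of small primes). Let `H` be
a set of `k` shifts whose singular series at level `Q` is not zero. Almost surely the maximal gap, up to `x`, between
the integers `n` with `n + H` contained in `A` is asymptotic to `log^(k+1) x` divided by the singular series.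
-/

set_option autoImplicit false

namespace Pool.Agent.Results.MP_3efbeb_nt.MaximalTupleGaps

open MeasureTheory Filter Pool.Agent.Q120.GM

theorem result (Q : ℕ) (hQ : 1 ≤ Q) :
    (∃ (Ω : Type) (_ : MeasurableSpace Ω) (μ : Measure Ω) (A : Ω → Set ℕ),
      IsProbabilityMeasure μ ∧ IsModel μ (level Q) A) ∧
    ∀ (Ω : Type) [MeasurableSpace Ω] (μ : Measure Ω) [IsProbabilityMeasure μ] (A : Ω → Set ℕ),
      IsModel μ (level Q) A →
      ∀ᵐ ω ∂μ, ∀ H : Finset ℕ, H.Nonempty → 0 < sing Q H → ∀ ε : ℝ, 0 < ε →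
        -- every window of length `(1 + ε) log^(k+1) x / sing Q H` contains an `n` with `n + H ⊆ A`
        (∀ᶠ x : ℕ in atTop, ∃ n : ℕ, x < n ∧ (n : ℝ) ≤ x + (1 + ε) * Real.log x ^ (H.card + 1) / sing Q H ∧
          ∀ h ∈ H, n + h ∈ A ω) ∧
        -- at every scale some window of length `(1 - ε) log^(k+1) y / sing Q H` contains none
        (∀ᶠ x : ℕ in atTop, ∃ y : ℕ, x ≤ y ∧ y ≤ 2 * x ∧ ∀ n : ℕ, y < n →
          (n : ℝ) ≤ y + (1 - ε) * Real.log y ^ (H.card + 1) / sing Q H → ¬ ∀ h ∈ H, n + h ∈ A ω) := by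
  refine ⟨⟨_, _, prodMeasure (level Q), trueSet, inferInstance, isModel _ (level_nonneg Q) (level_le_one Q)⟩, ?_⟩
  intro Ω _ μ _ A hA
  have h1 : ∀ᵐ ω ∂μ, ∀ (H : Finset ℕ) (j : ℕ), H.Nonempty → 0 < sing Q H →
      (∀ᶠ x : ℕ in atTop, ∃ n : ℕ, x < n ∧
        (n : ℝ) ≤ x + (1 + 1 / ((j : ℝ) + 2)) * Real.log x ^ (H.card + 1) / sing Q H ∧ Occ (A ω) H n) ∧
      (∀ᶠ x : ℕ in atTop, ∃ y : ℕ, x ≤ y ∧ y ≤ 2 * x ∧ ∀ n : ℕ, y < n →
        (n : ℝ) ≤ y + (1 - 1 / ((j : ℝ) + 2)) * Real.log y ^ (H.card + 1) / sing Q H → ¬ Occ (A ω) H n) := by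
    rw [ae_all_iff]
    intro H
    rw [ae_all_iff]
    intro j
    by_cases hH : H.Nonempty
    · by_cases hS : 0 < sing Q H
      · have h2 : 1 / ((j : ℝ) + 2) < 1 := by
          rw [div_lt_one (by positivity)]
          linarith [Nat.cast_nonneg (α := ℝ) j]
        filter_upwards [gap_upper hA hQ hS (show 0 < 1 / ((j : ℝ) + 2) by positivity) h2.le,
          gap_lower hA hQ hH hS (show 0 < 1 / ((j : ℝ) + 2) by positivity) h2] with ω h3 h4
        exact fun _ _ => ⟨h3, h4⟩
      · exact Eventually.of_forall (fun ω _ h => absurd h hS)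
    · exact Eventually.of_forall (fun ω h => absurd h hH)
  filter_upwards [h1] with ω hω
  intro H hH hS ε hε
  obtain ⟨j, hj⟩ := exists_nat_gt (1 / ε)
  have hj1 : 1 / ((j : ℝ) + 2) ≤ ε := by
    rw [div_le_iff₀ (by positivity)]
    rw [div_lt_iff₀ hε] at hj
    nlinarith
  obtain ⟨h3, h4⟩ := hω H j hH hS
  constructor
  · filter_upwards [h3, Pool.Agent.Q120.AD.hl.eventually_ge_atTop 0] with x hx hL
    obtain ⟨n, n1, n2, n3⟩ := hx
    refine ⟨n, n1, n2.trans ?_, n3⟩
    have e1 : (1 + 1 / ((j : ℝ) + 2)) * Real.log x ^ (H.card + 1) / sing Q H ≤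
        (1 + ε) * Real.log x ^ (H.card + 1) / sing Q H := by
      apply div_le_div_of_nonneg_right _ hS.le
      exact mul_le_mul_of_nonneg_right (by linarith) (by positivity)
    linarith
  · filter_upwards [h4, eventually_ge_atTop 3] with x hx hx3
    obtain ⟨y, y1, y2, y3⟩ := hx
    refine ⟨y, y1, y2, fun n hn1 hn2 => y3 n hn1 (hn2.trans ?_)⟩
    have hL := Real.log_natCast_nonneg y
    have e1 : (1 - ε) * Real.log y ^ (H.card + 1) / sing Q H ≤
        (1 - 1 / ((j : ℝ) + 2)) * Real.log y ^ (H.card + 1) / sing Q H := by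
      apply div_le_div_of_nonneg_right _ hS.le
      exact mul_le_mul_of_nonneg_right (by linarith) (by positivity)
    linarith

end Pool.Agent.Results.MP_3efbeb_nt.MaximalTupleGaps
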