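import Pool.Agent.Q236.UL.BetweenLaw
import Pool.Agent.Y879.GL.QuadU
import Pool.Agent.Q236.JC.Sys

set_option autoImplicit false

/-!
# The number of almost prime triples between consecutive almost prime quadruples

A system is a finite set `S` of polynomials; `m` is good for `S` if no `f (m)`, `f ∈ S`, has a prime factor
`≤ X ^ (1 / r)`. Let `S`, `S'` be ANY two admissible systems with `|S'| < |S|`, so that the good numbers of `S'` are
denser than those of `S` by the factor `W(S') / W(S) → ∞`. For consecutive good numbers of `S`, the number of the good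
numbers of `S'` between them, divided by this factor, has asymptotically an exponential law, and these numbers are
independent for `J` consecutive gaps. No relation between the two systems is needed: `S'` may be contained in `S`.

For example, `S = {x, x + 2, x + 6, x + 8}` and `S' = {x, x + 2, x + 6}` or `{x, x + 4, x + 6}`: the numbers of almost
prime triples between successive almost prime quadruples are asymptotically independent exponential variables, in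
units of the ratio of the densities (of order `log X`).

Method: law of the gaps (`Pool.Agent.Q236.UL`), and a law of large numbers in the gaps: windows of length `H / W(S')`
contain about `H` good numbers of `S'` by the Poisson law of mean `H`, except for a proportion `exp (- c H)`; this
gives the lower bound in almost all gaps, and the upper bound follows from the total number of the good numbers.
-/

namespace Pool.Agent.Results.MP_3efbeb_nt.TriplesBetweenQuadruples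

open Finset Filter Polynomial

/-- The number `ω_S(p)` of the residues `n` modulo `p` for which `p` divides the product of the `f (n)`, `f ∈ S`. -/
def ω (S : Finset ℤ[X]) (p : ℕ) : ℕ :=
  ((Finset.range p).filter (fun n : ℕ => (p : ℤ) ∣ ∏ f ∈ S, f.eval (n : ℤ))).card

/-- The product of `1 - ω_S(p) / p` over the primes `p ≤ y`. -/
noncomputable def W (y : ℝ) (S : Finset ℤ[X]) : ℝ :=
  ∏ p ∈ (Finset.Icc 1 ⌊y⌋₊).filter Nat.Prime, (1 - (ω S p : ℝ) / p)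

/-- A nonempty set of at most `k` irreducible polynomials of degrees between `1` and `D` with positive leading
coefficients, without fixed prime divisor. -/
structure Admissible (k D : ℕ) (S : Finset ℤ[X]) : Prop where
  nonempty : S.Nonempty
  card : S.card ≤ k
  irr : ∀ f ∈ S, Irreducible f
  deg : ∀ f ∈ S, 0 < f.natDegree ∧ f.natDegree ≤ D
  lead : ∀ f ∈ S, 0 < f.leadingCoeff
  adm : ∀ p : ℕ, p.Prime → ω S p < p

/-- No prime `p ≤ X ^ (1 / r)` divides any of the `f (m)`, `f ∈ S`. -/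
def Good (X : ℕ) (S : Finset ℤ[X]) (r m : ℕ) : Prop :=
  ∀ p : ℕ, p.Prime → (p : ℝ) ≤ (X : ℝ) ^ (1 / (r : ℝ)) → ∀ f ∈ S, ¬ (p : ℤ) ∣ f.eval (m : ℤ)

/-- `m'` is the next good number after `m`. -/
def Next (X : ℕ) (S : Finset ℤ[X]) (r m m' : ℕ) : Prop :=
  m < m' ∧ Good X S r m' ∧ ∀ c, m < c → c < m' → ¬ Good X S r c

open Classical in
/-- The number of the good `c` with `m < c < m'`. -/
noncomputable def between (X : ℕ) (S : Finset ℤ[X]) (r m m' : ℕ) : ℕ :=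
  ((Finset.Ioo m m').filter (fun c => Good X S r c)).card

/-- The ratio of the densities of the good numbers of `S'` and `S`. -/
noncomputable def ratio (X : ℕ) (S S' : Finset ℤ[X]) (r : ℕ) : ℝ :=
  W ((X : ℝ) ^ (1 / (r : ℝ))) S' / W ((X : ℝ) ^ (1 / (r : ℝ))) S

/-- The next good numbers of `S` after `n = x_0` are `x_1 < x_2 < … < x_J`, and between `x_j` and `x_{j+1}` there are
more than `t_j · ratio` good numbers of `S'`. -/
def Run {J : ℕ} (X : ℕ) (S S' : Finset ℤ[X]) (r : ℕ) (t : Fin J → ℝ) (n : ℕ) : Prop :=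
  ∃ x : ℕ → ℕ, x 0 = n ∧ ∀ j : Fin J, Next X S r (x j) (x (j + 1)) ∧
    t j * ratio X S S' r < between X S' r (x j) (x (j + 1))

open Classical in
/-- The law: for all `t_j` in `[0, Λ]`, the number of the good `n` of `S` in `(Z, Z + Y]` such that the next `J` gaps
contain more than `t_j · ratio` good numbers of `S'` is `Y W(S) exp (- ∑ t_j)` up to `ε Y W(S)`. -/
def Law (J X : ℕ) (S S' : Finset ℤ[X]) (r : ℕ) (Λ ε : ℝ) (Z Y : ℕ) : Prop :=
  ∀ t : Fin J → ℝ, (∀ j, 0 ≤ t j ∧ t j ≤ Λ) →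
    |(((Finset.Ioc Z (Z + Y)).filter (fun n => Good X S r n ∧ Run X S S' r t n)).card : ℝ) -
      Y * W ((X : ℝ) ^ (1 / (r : ℝ))) S * Real.exp (-∑ j, t j)| ≤ ε * (Y * W ((X : ℝ) ^ (1 / (r : ℝ))) S)

/-- The polynomials `x + h`, `h ∈ H`. -/
noncomputable def shape (H : Finset ℕ) : Finset ℤ[X] := H.image (fun h : ℕ => X + C (h : ℤ))

/-- The shapes `(m, m + 2, m + 6)` and `(m, m + 4, m + 6)` of the triples. -/
def triple : Fin 2 → Finset ℕ := ![{0, 2, 6}, {0, 4, 6}]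

/-- The shape `(m, m + 2, m + 6, m + 8)` of the quadruples. -/
def quadruple : Finset ℕ := {0, 2, 6, 8}

open Pool.Agent.W123.RU Pool.Agent.H373R2.T7 Pool.Agent.TH464.PO Pool.Agent.W123.RP Pool.Agent.Q236.GW
open Pool.Agent.Y879.GL Pool.Agent.Q236.EV Pool.Agent.Q236.UL

lemma QS_iff' (S : Finset ℤ[X]) (p m : ℕ) (hp : p.Prime) :
    QS S p m ↔ (p : ℤ) ∣ ∏ f ∈ S, f.eval (m : ℤ) := by
  have hpi : Prime (p : ℤ) := Nat.prime_iff_prime_int.1 hp
  rw [QS_iff, hpi.dvd_finsetProd_iff]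

lemma nu_eq (S : Finset ℤ[X]) (p : ℕ) (hp : p.Prime) : nuB (QS S) p = ω S p := by
  unfold nuB ω
  exact card_iff _ _ (fun m _ => QS_iff' S p m hp)

lemma W_eq (y : ℝ) (S : Finset ℤ[X]) : Vq (QS S) ⌊y⌋₊ = W y S := by
  unfold Vq W
  have h1 : pz ⌊y⌋₊ = (Finset.Icc 1 ⌊y⌋₊).filter Nat.Prime := by
    ext p
    rw [mem_pz, Finset.mem_filter, Finset.mem_Icc]
    exact ⟨fun h => ⟨⟨h.2.one_lt.le, h.1⟩, h.2⟩, fun h => ⟨h.1.2, h.2⟩⟩
  rw [h1]
  apply Finset.prod_congr rfl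
  intro p hp
  rw [nu_eq S p (Finset.mem_filter.1 hp).2]

lemma W_eq' (y : ℕ) (S : Finset ℤ[X]) : Vq (QS S) y = W y S := by
  rw [← W_eq, Nat.floor_natCast]

lemma good_iff (X : ℕ) (S : Finset ℤ[X]) (r m : ℕ) :
    Sf (QS S) ⌊(X : ℝ) ^ (1 / (r : ℝ))⌋₊ m ↔ Good X S r m := by
  have h0 : (0 : ℝ) ≤ (X : ℝ) ^ (1 / (r : ℝ)) := by positivity
  constructor
  · intro h q hq hqn f hf hd
    exact h q (mem_pz.2 ⟨Nat.le_floor hqn, hq⟩) ((QS_iff S q m).2 ⟨f, hf, hd⟩)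
  · intro h q hq hQ
    obtain ⟨f, hf, hd⟩ := (QS_iff S q m).1 hQ
    exact h q (mem_pz.1 hq).2 (mem_pz' h0 hq) f hf hd

lemma next_iff (X : ℕ) (S : Finset ℤ[X]) (r m m' : ℕ) :
    Nx (Sf (QS S) ⌊(X : ℝ) ^ (1 / (r : ℝ))⌋₊) m m' ↔ Next X S r m m' := by
  unfold Nx Next
  simp only [good_iff]

lemma between_eq (X : ℕ) (S : Finset ℤ[X]) (r m m' : ℕ) :
    Kb (Sf (QS S) ⌊(X : ℝ) ^ (1 / (r : ℝ))⌋₊) m m' = between X S r m m' := by
  classical
  unfold Kb between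
  congr 1
  apply Finset.filter_congr
  intro c _
  exact good_iff X S r c

lemma run_iff {J : ℕ} (X : ℕ) (S S' : Finset ℤ[X]) (r : ℕ) (t : Fin J → ℝ) (n : ℕ) :
    Pool.Agent.Q236.UL.Btw (Sf (QS S) ⌊(X : ℝ) ^ (1 / (r : ℝ))⌋₊) (Sf (QS S') ⌊(X : ℝ) ^ (1 / (r : ℝ))⌋₊)
      (fun j => t j * (Vq (QS S') ⌊(X : ℝ) ^ (1 / (r : ℝ))⌋₊ / Vq (QS S) ⌊(X : ℝ) ^ (1 / (r : ℝ))⌋₊)) n ↔
      Run X S S' r t n := by
  unfold Pool.Agent.Q236.UL.Btw Run ratio
  simp only [next_iff, between_eq, W_eq]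

lemma toAS {k D : ℕ} {S : Finset ℤ[X]} (h : Admissible k D S) : AS k D S where
  ps := ⟨h.irr, fun f hf => (h.deg f hf).1, h.lead⟩
  ne := h.nonempty
  card := h.card
  degD f hf := (h.deg f hf).2
  adm p hp := by
    obtain ⟨m, _, hm⟩ := nu_exists (QS S) p (by rw [nu_eq S p hp]; exact h.adm p hp)
    exact ⟨m, fun f hf hd => hm ((QS_iff S p m).2 ⟨f, hf, hd⟩)⟩

lemma few (X r K m : ℕ) (hr : 1 ≤ r) (hX : 2 ^ r ≤ X) (hm : 0 < m) (hmX : m ≤ X ^ K)
    (h : ∀ p : ℕ, p.Prime → p ∣ m → (X : ℝ) ^ (1 / (r : ℝ)) < (p : ℝ)) :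
    m.primeFactorsList.length ≤ K * r := by
  have hr0 : (r : ℝ) ≠ 0 := by exact_mod_cast (by omega : r ≠ 0)
  have hX1 : (1 : ℝ) ≤ X := by
    have : 1 ≤ 2 ^ r := Nat.one_le_two_pow
    exact_mod_cast this.trans hX
  have hz1 : 1 ≤ (X : ℝ) ^ (1 / (r : ℝ)) := Real.one_le_rpow hX1 (by positivity)
  apply length_le m (K * r) (by omega) _ h _ hz1
  have e : ((X : ℝ) ^ (1 / (r : ℝ))) ^ r = X := by
    rw [← Real.rpow_natCast, ← Real.rpow_mul (by linarith), one_div, inv_mul_cancel₀ hr0, Real.rpow_one]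
  have hmX' : (m : ℝ) ≤ (X : ℝ) ^ K := by exact_mod_cast hmX
  rw [pow_succ, mul_comm K r, pow_mul, e]
  have h0 : (0 : ℝ) ≤ (X : ℝ) ^ K := by positivity
  nlinarith

lemma lin_as {k : ℕ} {H : Finset ℕ} (h0 : 0 ∈ H) (hk : H.card ≤ k)
    (hadm : ∀ p : ℕ, p.Prime → ∃ n : ℕ, ∀ h ∈ H, ¬ p ∣ n + h) : AS k 1 (shape H) where
  ps := by
    refine ⟨?_, ?_, ?_⟩
    · intro f hf
      unfold shape at hf
      rw [mem_image] at hf
      obtain ⟨h, _, rfl⟩ := hf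
      have e : (X + C (h : ℤ) : ℤ[X]) = X - C (-(h : ℤ)) := by rw [C_neg, sub_neg_eq_add]
      rw [e]
      exact irreducible_X_sub_C _
    · intro f hf
      unfold shape at hf
      rw [mem_image] at hf
      obtain ⟨h, _, rfl⟩ := hf
      rw [natDegree_X_add_C]
      exact one_pos
    · intro f hf
      unfold shape at hf
      rw [mem_image] at hf
      obtain ⟨h, _, rfl⟩ := hf
      rw [leadingCoeff_X_add_C]
      exact one_pos
  ne := ⟨_, mem_image_of_mem _ h0⟩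
  card := card_image_le.trans hk
  degD f hf := by
    unfold shape at hf
    rw [mem_image] at hf
    obtain ⟨h, _, rfl⟩ := hf
    rw [natDegree_X_add_C]
  adm p hp := by
    obtain ⟨n, hn⟩ := hadm p hp
    refine ⟨n, ?_⟩
    intro f hf hd
    unfold shape at hf
    rw [mem_image] at hf
    obtain ⟨h, hh, rfl⟩ := hf
    apply hn h hh
    rw [eval_add, eval_X, eval_C] at hd
    exact_mod_cast hd

lemma card_shape (H : Finset ℕ) : (shape H).card = H.card := by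
  unfold shape
  apply card_image_of_injective
  intro a b hab
  have h5 := congrArg (eval 0) hab
  simp only [eval_add, eval_X, eval_C, zero_add] at h5
  exact_mod_cast h5

lemma small_adm (H : Finset ℕ) (hH : ∀ h ∈ H, h ≤ 8) (h2 : ∃ n ≤ 6, ∀ h ∈ H, ¬ 2 ∣ n + h)
    (h3 : ∃ n ≤ 6, ∀ h ∈ H, ¬ 3 ∣ n + h) (h5 : ∃ n ≤ 6, ∀ h ∈ H, ¬ 5 ∣ n + h)
    (h7 : ∃ n ≤ 6, ∀ h ∈ H, ¬ 7 ∣ n + h) (p : ℕ) (hp : p.Prime) : ∃ n : ℕ, ∀ h ∈ H, ¬ p ∣ n + h := by
  by_cases hp11 : 11 ≤ p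
  · refine ⟨1, fun h hh hd => ?_⟩
    have h1 := hH h hh
    have := Nat.le_of_dvd (by omega) hd
    omega
  · have h6 := hp.two_le
    have h8 : p = 2 ∨ p = 3 ∨ p = 5 ∨ p = 7 := by
      interval_cases p <;> first | omega | (revert hp; decide)
    rcases h8 with rfl | rfl | rfl | rfl
    · exact ⟨_, h2.choose_spec.2⟩
    · exact ⟨_, h3.choose_spec.2⟩
    · exact ⟨_, h5.choose_spec.2⟩
    · exact ⟨_, h7.choose_spec.2⟩

lemma triple_adm (i : Fin 2) (p : ℕ) (hp : p.Prime) : ∃ n : ℕ, ∀ h ∈ triple i, ¬ p ∣ n + h := by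
  revert i
  intro i
  fin_cases i
  · exact small_adm _ (by decide) ⟨1, by norm_num, by decide⟩ ⟨2, by norm_num, by decide⟩
      ⟨1, by norm_num, by decide⟩ ⟨2, by norm_num, by decide⟩ p hp
  · exact small_adm _ (by decide) ⟨1, by norm_num, by decide⟩ ⟨1, by norm_num, by decide⟩
      ⟨2, by norm_num, by decide⟩ ⟨2, by norm_num, by decide⟩ p hp

lemma quadruple_adm (p : ℕ) (hp : p.Prime) : ∃ n : ℕ, ∀ h ∈ quadruple, ¬ p ∣ n + h :=
  small_adm _ (by decide) ⟨1, by norm_num, by decide⟩ ⟨2, by norm_num, by decide⟩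
    ⟨1, by norm_num, by decide⟩ ⟨2, by norm_num, by decide⟩ p hp

open Classical in
lemma law_of {J : ℕ} (X : ℕ) (S S' : Finset ℤ[X]) (r : ℕ) (Λ ε : ℝ) (Z Y : ℕ)
    (h : ∀ t : Fin J → ℝ, (∀ j, 0 ≤ t j ∧ t j ≤ Λ) →
      |(((Ioc Z (Z + Y)).filter (fun n => Sf (QS S) ⌊(X : ℝ) ^ (1 / (r : ℝ))⌋₊ n ∧
          Pool.Agent.Q236.UL.Btw (Sf (QS S) ⌊(X : ℝ) ^ (1 / (r : ℝ))⌋₊)
            (Sf (QS S') ⌊(X : ℝ) ^ (1 / (r : ℝ))⌋₊) (fun j => t j * (Vq (QS S') ⌊(X : ℝ) ^ (1 / (r : ℝ))⌋₊ / Vq (QS S) ⌊(X : ℝ) ^ (1 / (r : ℝ))⌋₊))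
            n)).card : ℝ) -
        Y * Vq (QS S) ⌊(X : ℝ) ^ (1 / (r : ℝ))⌋₊ * Real.exp (-∑ j, t j)| ≤
        ε * (Y * Vq (QS S) ⌊(X : ℝ) ^ (1 / (r : ℝ))⌋₊)) : Law J X S S' r Λ ε Z Y := by
  intro t ht
  rw [← W_eq]
  convert h t ht using 5
  ext m
  rw [mem_filter, mem_filter, good_iff, run_iff]

/-- **The number of almost prime triples between consecutive almost prime quadruples.** -/
theorem result (k D J : ℕ) (Λ ε θ : ℝ) (hΛ : 0 ≤ Λ) (hε : 0 < ε) (hθ : 0 < θ) :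
    (∀ S : Finset ℤ[X], Admissible k D S → ∃ c C : ℝ, 0 < c ∧ 0 < C ∧ ∀ y : ℕ, 3 ≤ y →
      c / Real.log y ^ S.card ≤ W y S ∧ W y S ≤ C / Real.log y ^ S.card) ∧
    (∀ (X r K : ℕ) (S : Finset ℤ[X]) (m : ℕ), 1 ≤ r → 2 ^ r ≤ X → Good X S r m →
      ∀ f ∈ S, 0 < (f.eval (m : ℤ)).natAbs → (f.eval (m : ℤ)).natAbs ≤ X ^ K →
        (f.eval (m : ℤ)).natAbs.primeFactorsList.length ≤ K * r) ∧
    (∃ r₀ : ℕ, 2 ≤ r₀ ∧ ∀ r : ℕ, r₀ ≤ r → ∀ S S' : Finset ℤ[X], Admissible k D S → Admissible k D S' →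
      S'.card < S.card → ∀ᶠ X : ℕ in atTop, ∀ Z Y : ℕ, (X : ℝ) ^ θ ≤ Y → Law J X S S' r Λ ε Z Y) ∧
    (∃ r₀ : ℕ, 2 ≤ r₀ ∧ ∀ r : ℕ, r₀ ≤ r → ∀ i : Fin 2, ∀ᶠ X : ℕ in atTop, ∀ Z Y : ℕ, (X : ℝ) ^ θ ≤ Y →
      Law J X (shape quadruple) (shape (triple i)) r Λ ε Z Y) := by
  refine ⟨?_, ?_, ?_, ?_⟩
  · intro S hS
    obtain ⟨v, Cv, hv, hCv, hV⟩ := as_V (toAS hS)
    refine ⟨v, Cv, hv, hCv, fun y hy => ?_⟩
    have h1 := hV y hy
    rwa [W_eq'] at h1
  · intro X r K S m hr hX hG f hf h1 h2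
    apply few X r K _ hr hX h1 h2
    intro p hp hd
    by_contra hcon
    rw [not_lt] at hcon
    exact hG p hp hcon f hf (Int.natCast_dvd.2 hd)
  · obtain ⟨r₀, hr₀, h⟩ := between_law k D J Λ ε hΛ hε θ hθ
    refine ⟨r₀, hr₀, ?_⟩
    intro r hr S S' hS hS' hc
    filter_upwards [h r hr S S' (toAS hS) (toAS hS') hc] with X hX
    intro Z Y hY
    exact law_of X S S' r Λ ε Z Y (hX Z Y hY)
  · obtain ⟨r₀, hr₀, h⟩ := between_law 4 1 J Λ ε hΛ hε θ hθ
    refine ⟨r₀, hr₀, ?_⟩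
    intro r hr i
    have h0 : ∀ i, 0 ∈ triple i := by decide
    have hc : ∀ i, (triple i).card = 3 := by decide
    have h0q : 0 ∈ quadruple := by decide
    have hcq : quadruple.card = 4 := by decide
    filter_upwards [h r hr (shape quadruple) (shape (triple i)) (lin_as h0q hcq.le quadruple_adm)
      (lin_as (h0 i) (by rw [hc i]; norm_num) (triple_adm i)) (by
        rw [card_shape, card_shape, hc i, hcq]
        norm_num)] with X hX
    intro Z Y hY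
    exact law_of X _ _ r Λ ε Z Y (hX Z Y hY)

end Pool.Agent.Results.MP_3efbeb_nt.TriplesBetweenQuadruples
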