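import Pool.Agent.Q250.NP.NatRow

/-!
# All admissible patterns at once: a prime at any prescribed position, the other members almost prime, in narrow progressions

The two patterns of the question are `0, 2, 6` and `0, 2, 6, 8`.
-/

set_option autoImplicit false

namespace Pool.Agent.Results.MP_3efbeb_nt.UniformPrimePositions

open Finset Filter Polynomial
open Pool.Agent.Q250.NP
open Pool.Agent.Q253.Line (W NFD rt)

/-- the pattern `H` is admissible: for every prime `p` there is `x` such that `p` divides no `x + H i` -/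
def Admissible {k : ℕ} (H : Fin (k + 1) → ℕ) : Prop := ∀ p : ℕ, p.Prime → ∃ x : ℕ, ∀ i, ¬ p ∣ x + H i

/-- the number of the classes `x` modulo `p` for which `p` divides one of the `x + H i` -/
def omega {k : ℕ} (H : Fin (k + 1) → ℕ) (p : ℕ) : ℕ := ((range p).filter (fun x : ℕ => ∃ i, p ∣ x + H i)).card

/-- the product of `1 - omega H p / p` over the primes `p ≤ n` -/
noncomputable def dens {k : ℕ} (H : Fin (k + 1) → ℕ) (n : ℕ) : ℝ :=
  ∏ p ∈ (Icc 1 n).filter Nat.Prime, (1 - (omega H p : ℝ) / p)

open Classical in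
/-- the `y` such that `y + H j` is a prime in `(n, 2 n)` and all prime factors of the other `y + H i` are larger than
`n ^ (1/t)` -/
noncomputable def Good {k : ℕ} (H : Fin (k + 1) → ℕ) (j : Fin (k + 1)) (t n : ℕ) : Finset ℕ :=
  (range (2 * n)).filter (fun y : ℕ => n < y + H j ∧ y + H j < 2 * n ∧ (y + H j).Prime ∧
    ∀ i : Fin (k + 1), i ≠ j → ∀ p : ℕ, p.Prime → p ∣ y + H i → (n : ℝ) ^ (1 / (t : ℝ)) < p)

section pattern

variable {k : ℕ} (H : Fin (k + 1) → ℕ) (j : Fin (k + 1))

/-- the polynomials in the prime member -/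
noncomputable def G (i : Fin k) : ℤ[X] := X + C ((H (j.succAbove i) : ℤ) - H j)

/-- their values -/
def val (i : Fin k) (z : ℕ) : ℕ := z + H (j.succAbove i) - H j

theorem eval_F (x : ℕ) : ((C (1 : ℤ) * X + C (0 : ℤ)) * ∏ i : Fin k, G H j i).eval ((x : ℤ) + H j) =
    ∏ i : Fin (k + 1), ((x : ℤ) + H i) := by
  rw [eval_mul, eval_prod, Fin.prod_univ_succAbove _ j]
  congr 1
  · simp
  · refine prod_congr rfl fun i _ => ?_
    simp only [G, eval_add, eval_X, eval_C]
    ring

theorem dvd_F (x p : ℕ) (hp : p.Prime) :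
    (p : ℤ) ∣ ((C (1 : ℤ) * X + C (0 : ℤ)) * ∏ i : Fin k, G H j i).eval ((x : ℤ) + H j) ↔ ∃ i, p ∣ x + H i := by
  rw [eval_F, Prime.dvd_finsetProd_iff (Nat.prime_iff_prime_int.1 hp)]
  constructor
  · rintro ⟨i, _, hi⟩
    exact ⟨i, by exact_mod_cast hi⟩
  · rintro ⟨i, hi⟩
    exact ⟨i, mem_univ i, by exact_mod_cast hi⟩

theorem repr (hH : Admissible H) {n : ℕ} (hn : 4 ≤ n) (hle : ∀ i, 2 * H i ≤ n) :
    Rep k 2 n 1 0 (fun z => z) (val H j) (G H j) := by
  constructor
  · refine (natDegree_prod_le _ _).trans ?_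
    calc _ ≤ ∑ _i : Fin k, 1 := sum_le_sum fun i _ => by
            unfold G
            exact (natDegree_X_add_C _).le
      _ = k := by simp
  · intro p hp
    obtain ⟨x, hx⟩ := hH p hp
    refine ⟨(x : ℤ) + H j, ?_⟩
    rw [dvd_F H j x p hp]
    rintro ⟨i, hi⟩
    exact hx i hi
  · intro y h1 h2
    refine ⟨by simp, h1⟩
  · intro y h1 h2 i
    have h3 := hle j
    simp only [G, val, eval_add, eval_X, eval_C]
    omega
  · intro y h1 h2 i
    have h3 := hle j
    have h4 := hle (j.succAbove i)
    simp only [val]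
    have h5 : 4 * n ≤ n ^ 2 := by nlinarith
    refine ⟨by omega, by omega⟩

theorem T_eq {n : ℕ} (hle : ∀ i, 2 * H i ≤ n) (t : ℕ) :
    T (fun z => z) (val H j) t n = (Good H j t n).image (fun y => y + H j) := by
  classical
  ext z
  have h3 := hle j
  unfold T Good
  rw [mem_filter, mem_Ioo, mem_image]
  constructor
  · rintro ⟨⟨h1, h2⟩, h4, h5⟩
    refine ⟨z - H j, ?_, by omega⟩
    rw [mem_filter, mem_range]
    have h6 : z - H j + H j = z := by omega
    refine ⟨by omega, by omega, by omega, by rw [h6]; exact h4, ?_⟩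
    intro i hi p hp hpd
    obtain ⟨i', rfl⟩ := Fin.exists_succAbove_eq hi
    refine h5 i' p hp ?_
    unfold val
    have h7 : z + H (j.succAbove i') - H j = z - H j + H (j.succAbove i') := by omega
    rw [h7]
    exact hpd
  · rintro ⟨y, hy, rfl⟩
    rw [mem_filter, mem_range] at hy
    obtain ⟨_, h1, h2, h4, h5⟩ := hy
    refine ⟨⟨h1, h2⟩, h4, fun i p hp hpd => h5 _ (Fin.succAbove_ne j i) p hp ?_⟩
    unfold val at hpd
    have h7 : y + H j + H (j.succAbove i) - H j = y + H (j.succAbove i) := by omega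
    rw [h7] at hpd
    exact hpd

theorem card_T {n : ℕ} (hle : ∀ i, 2 * H i ≤ n) (t : ℕ) :
    (T (fun z => z) (val H j) t n).card = (Good H j t n).card := by
  rw [T_eq H j hle, card_image_of_injective]
  intro a b hab
  simpa using hab

theorem dens_eq (n : ℕ) : dens H n = W ((C (1 : ℤ) * X + C (0 : ℤ)) * ∏ i : Fin k, G H j i) n := by
  unfold dens W
  apply prod_congr rfl
  intro p hp
  have hpp : p.Prime := (Pool.Agent.Q253.Line.mem_pr.1 hp).1
  congr 2
  have h0 : omega H p = rt ((C (1 : ℤ) * X + C (0 : ℤ)) * ∏ i : Fin k, G H j i) p := by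
    unfold omega rt
    refine card_bij (fun x _ => (x + H j) % p) ?_ ?_ ?_
    · intro x hx
      rw [mem_filter, mem_range] at hx ⊢
      refine ⟨Nat.mod_lt _ hpp.pos, ?_⟩
      have h1 : (p : ℤ) ∣ (((x + H j) % p : ℕ) : ℤ) - ((x : ℤ) + H j) := by
        rw [Int.natCast_mod]
        push_cast
        rw [Int.emod_def]
        exact ⟨-(((x : ℤ) + H j) / p), by ring⟩
      rw [Pool.Agent.Q253.Line.dvd_eval_congr _ h1, dvd_F H j x p hpp]
      exact hx.2
    · intro x hx y hy hxy
      rw [mem_filter, mem_range] at hx hy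
      have h1 : x + H j ≡ y + H j [MOD p] := hxy
      have h2 := Nat.ModEq.add_right_cancel' _ h1
      rw [Nat.ModEq, Nat.mod_eq_of_lt hx.1, Nat.mod_eq_of_lt hy.1] at h2
      exact h2
    · intro z hz
      rw [mem_filter, mem_range] at hz
      have h5 : ((z + (p - 1) * H j) % p + H j) % p = z := by
        rw [Nat.mod_add_mod]
        have h6 : z + (p - 1) * H j + H j = z + p * H j := by
          obtain ⟨q, hq⟩ : ∃ q, p = q + 1 := ⟨p - 1, by have := hpp.pos; omega⟩
          rw [hq, Nat.add_sub_cancel]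
          ring
        rw [h6, Nat.add_mul_mod_self_left, Nat.mod_eq_of_lt hz.1]
      refine ⟨(z + (p - 1) * H j) % p, ?_, h5⟩
      rw [mem_filter, mem_range]
      refine ⟨Nat.mod_lt _ hpp.pos, ?_⟩
      rw [← dvd_F H j _ p hpp]
      have h1 : (p : ℤ) ∣ (z : ℤ) - ((((z + (p - 1) * H j) % p : ℕ) : ℤ) + H j) := by
        have h7 : (((z + (p - 1) * H j) % p : ℕ) + H j) ≡ z [MOD p] := by
          rw [Nat.ModEq, h5, Nat.mod_eq_of_lt hz.1]
        have h8 := (Nat.modEq_iff_dvd).1 h7
        push_cast at h8 ⊢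
        exact h8
      rw [← Pool.Agent.Q253.Line.dvd_eval_congr _ h1]
      exact hz.2
  rw [h0]

end pattern

/-- **All admissible patterns at once.** For every `k` there is `t ≥ 1`, depending on `k` only, and `c > 0` such that:

(1) for all large `n`, ALL admissible patterns `H` of `k + 1` shifts `≤ n / 2` and all positions `j`, there are at least
`c n dens H n ≥ c' n / log ^ (k + 1) n` integers `y` for which `y + H j` is a prime in `(n, 2 n)` and all prime factors of the
other `y + H i` are larger than `n ^ (1/t)`;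

(2) for all `L` and `δ > 0` there is `D` such that for all large `n`, all these patterns and positions, every set of such `y` of
relative density `≥ δ` contains `L` terms of an arithmetic progression with difference at most `log ^ D n`;

(3) for all `L` and `q` there is `D` such that for all large `n`, all these patterns and positions and every colouring of the
integers in `q` colours, there are `s_i ∈ [1, 2 t]` with `s_j = 1` and `L` such `y` of one colour in arithmetic progression with
difference at most `log ^ D n` such that `y + H i` is a product of exactly `s_i` primes, for every `i` and each of these `y`.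

(4) The patterns `0, 2, 6` and `0, 2, 6, 8` of the question are admissible. -/
theorem result :
    (∀ k : ℕ, ∃ t : ℕ, 1 ≤ t ∧ ∃ c : ℝ, 0 < c ∧
      (∃ N : ℕ, ∀ n : ℕ, N ≤ n → ∀ H : Fin (k + 1) → ℕ, Admissible H → (∀ i, 2 * H i ≤ n) → ∀ j : Fin (k + 1),
        c / Real.log n ^ (k + 1) ≤ dens H n ∧ c * (n * dens H n) ≤ ((Good H j t n).card : ℝ)) ∧
      (∀ (L : ℕ) (δ : ℝ), 0 < δ → ∃ D N : ℕ, ∀ n : ℕ, N ≤ n → ∀ H : Fin (k + 1) → ℕ, Admissible H →
        (∀ i, 2 * H i ≤ n) → ∀ j : Fin (k + 1), ∀ S ⊆ Good H j t n, δ * ((Good H j t n).card : ℝ) ≤ S.card →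
          ∃ x d : ℕ, 1 ≤ d ∧ (d : ℝ) ≤ Real.log n ^ D ∧ ∀ l < L, x + l * d ∈ S) ∧
      (∀ (L q : ℕ), 1 ≤ q → ∃ D N : ℕ, ∀ n : ℕ, N ≤ n → ∀ H : Fin (k + 1) → ℕ, Admissible H →
        (∀ i, 2 * H i ≤ n) → ∀ j : Fin (k + 1), ∀ col : ℕ → Fin q,
        ∃ (s : Fin (k + 1) → ℕ) (b : Fin q) (x d : ℕ), s j = 1 ∧ (∀ i, 1 ≤ s i ∧ s i ≤ 2 * t) ∧
          1 ≤ d ∧ (d : ℝ) ≤ Real.log n ^ D ∧ ∀ l < L, x + l * d ∈ Good H j t n ∧ col (x + l * d) = b ∧
            ∀ i : Fin (k + 1), (x + l * d + H i).primeFactorsList.length = s i)) ∧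
    Admissible (![0, 2, 6] : Fin 3 → ℕ) ∧ Admissible (![0, 2, 6, 8] : Fin 4 → ℕ) := by
  classical
  refine ⟨fun k => ?_, ?_, ?_⟩
  · obtain ⟨t, ht, HH⟩ := natRow k k 2
    obtain ⟨c, hc, ⟨N1, h1⟩, h2, h3⟩ := HH 1 0 one_ne_zero
    refine ⟨t, ht, c, hc, ⟨max N1 4, fun n hn H hH hle j => ?_⟩, fun L δ hδ => ?_, fun L q hq => ?_⟩
    · rw [dens_eq H j, ← card_T H j hle]
      exact h1 n ((le_max_left _ _).trans hn) _ _ _ (repr H j hH ((le_max_right _ _).trans hn) hle)
    · obtain ⟨D, N, h4⟩ := h2 L δ hδ
      refine ⟨D, max (max N 4) 4, fun n hn H hH hle j S hS hSc => ?_⟩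
      have hnN : N ≤ n := ((le_max_left _ _).trans (le_max_left _ _)).trans hn
      have hn4 : 4 ≤ n := (le_max_right _ _).trans hn
      obtain ⟨x, d, g1, g2, g3⟩ := h4 n hnN _ _ _ (repr H j hH hn4 hle) (S.image (fun y => y + H j))
        (by
          rw [T_eq H j hle]
          exact image_subset_image hS)
        (by
          rw [card_T H j hle, card_image_of_injective]
          · exact hSc
          · intro a b hab
            simpa using hab)
      rcases Nat.eq_zero_or_pos L with rfl | hL
      · exact ⟨0, d, g1, g2, fun l hl => absurd hl (Nat.not_lt_zero l)⟩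
      · have h5 := g3 0 hL
        rw [mem_image] at h5
        obtain ⟨y0, hy0, hy1⟩ := h5
        refine ⟨x - H j, d, g1, g2, fun l hl => ?_⟩
        have h6 := g3 l hl
        rw [mem_image] at h6
        obtain ⟨y, hy, hy2⟩ := h6
        have h7 : x - H j + l * d = y := by omega
        rw [h7]
        exact hy
    · obtain ⟨D, N, h4⟩ := h3 L q hq
      refine ⟨D, max (max N 4) 4, fun n hn H hH hle j col => ?_⟩
      have hnN : N ≤ n := ((le_max_left _ _).trans (le_max_left _ _)).trans hn
      have hn4 : 4 ≤ n := (le_max_right _ _).trans hn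
      obtain ⟨s, b, x, d, g1, g2, g3, g4⟩ := h4 n hnN _ _ _ (repr H j hH hn4 hle) (fun z => col (z - H j))
      refine ⟨fun i => if h : i = j then 1 else s ((Fin.exists_succAbove_eq h).choose), b, x - H j, d, by simp,
        fun i => ?_, g2, g3, fun l hl => ?_⟩
      · by_cases h : i = j
        · simp only [h, dif_pos]
          exact ⟨le_rfl, by omega⟩
        · simp only [h, dif_neg, not_false_eq_true]
          have := g1 ((Fin.exists_succAbove_eq h).choose)
          exact ⟨this.1, by linarith [this.2]⟩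
      · have hj := hle j
        have hx0 : n < x + 0 * d := by
          have h5 := (g4 0 (by omega)).1
          unfold T at h5
          rw [mem_filter, mem_Ioo] at h5
          exact h5.1.1
        obtain ⟨g5, g6, g7⟩ := g4 l hl
        have hxl : x - H j + l * d = x + l * d - H j := by omega
        rw [T_eq H j hle, mem_image] at g5
        obtain ⟨y, hy, hy2⟩ := g5
        have hy3 : x - H j + l * d = y := by omega
        refine ⟨by rw [hy3]; exact hy, by rw [hxl]; exact g6, fun i => ?_⟩
        by_cases h : i = j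
        · subst h
          simp only [dif_pos]
          unfold Good at hy
          rw [mem_filter] at hy
          rw [hy3, Nat.primeFactorsList_prime hy.2.2.2.1]
          rfl
        · simp only [h, dif_neg, not_false_eq_true]
          have h7 := (Fin.exists_succAbove_eq h).choose_spec
          have g8 := g7 ((Fin.exists_succAbove_eq h).choose)
          unfold val at g8
          rw [h7] at g8
          rw [← g8]
          congr 2
          omega
  · intro p hp
    by_cases h2 : p = 2
    · subst h2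
      exact ⟨1, by decide⟩
    · refine ⟨2, ?_⟩
      have h3 : ∀ m : ℕ, ¬ p ∣ 2 ^ m := fun m hm => h2 ((Nat.prime_dvd_prime_iff_eq hp Nat.prime_two).1
        (hp.dvd_of_dvd_pow hm))
      intro i
      fin_cases i
      · exact h3 1
      · exact h3 2
      · exact h3 3
  · intro p hp
    by_cases h2 : p = 2
    · subst h2
      exact ⟨1, by decide⟩
    · by_cases h5 : p = 5
      · subst h5
        exact ⟨1, by decide⟩
      · refine ⟨2, ?_⟩
        have h3 : ∀ m : ℕ, ¬ p ∣ 2 ^ m := fun m hm => h2 ((Nat.prime_dvd_prime_iff_eq hp Nat.prime_two).1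
          (hp.dvd_of_dvd_pow hm))
        intro i
        fin_cases i
        · exact h3 1
        · exact h3 2
        · exact h3 3
        · intro h10
          have h6 : p ∣ 2 * 5 := h10
          rcases (Nat.Prime.dvd_mul hp).1 h6 with h | h
          · exact h3 1 h
          · exact h5 ((Nat.prime_dvd_prime_iff_eq hp Nat.prime_five).1 h)

end Pool.Agent.Results.MP_3efbeb_nt.UniformPrimePositions
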